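import Mathlib
import Pool.Agent.H7.UC

namespace Pool.Agent.Results.MP_89e0e0_co.Equiv

open Finset Pool.Agent.H7.UC

section
variable {α : Type} [Fintype α] [DecidableEq α]

/-- Union-closed over the ground set `α` (no empty set, contains the ground set). -/
def UC (F : Finset (Finset α)) : Prop := ∅ ∉ F ∧ univ ∈ F ∧ ∀ A ∈ F, ∀ B ∈ F, A ∪ B ∈ F

open Classical in
/-- The closure of a family. -/
noncomputable def clos (F : Finset (Finset α)) : Finset (Finset α) :=
  {A | A.Nonempty ∧ UC (insert A F)}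

/-- The Frankl property. -/
def Half (F : Finset (Finset α)) : Prop := ∃ i, #F / 2 ≤ #{A ∈ F | i ∈ A}

end

/-- The union-closed sets conjecture. -/
def Frankl : Prop :=
  ∀ (α : Type) [Fintype α] [DecidableEq α] (F : Finset (Finset α)),
    (∀ A ∈ F, ∀ B ∈ F, A ∪ B ∈ F) → (∃ A ∈ F, A.Nonempty) → ∃ i, #F ≤ 2 * #{A ∈ F | i ∈ A}

variable {α : Type} [Fintype α] [DecidableEq α]

theorem mem_clos {F : Finset (Finset α)} (h : UC F) {A : Finset α} :
    A ∈ clos F ↔ A.Nonempty ∧ ∀ B ∈ F, B ⊆ A ∨ A ∪ B ∈ F := by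
  simp only [clos, mem_filter, mem_univ, true_and, UC, mem_insert]
  refine and_congr_right fun a => ⟨fun b B hB => ?_, fun b => ⟨?_, Or.inr h.2.1, ?_⟩⟩
  · exact (b.2.2 A (Or.inl rfl) B (Or.inr hB)).imp_left union_eq_left.1
  · rintro (e | e)
    · exact a.ne_empty e.symm
    · exact h.1 e
  · rintro X (rfl | hX) Y (rfl | hY)
    · simp
    · exact (b Y hY).imp_left union_eq_left.2
    · rw [union_comm]
      exact (b X hX).imp_left union_eq_left.2
    · exact Or.inr (h.2.2 X hX Y hY)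

theorem uc_clos {F : Finset (Finset α)} (h : UC F) : UC (clos F) := by
  refine ⟨fun e => by simpa using ((mem_clos h).1 e).1, (mem_clos h).2
    ⟨nonempty_iff_ne_empty.2 fun e => h.1 (e ▸ h.2.1), fun B _ => Or.inl (subset_univ _)⟩,
    fun A hA B hB => ?_⟩
  rw [mem_clos h] at hA hB ⊢
  refine ⟨hA.1.mono subset_union_left, fun C hC => ?_⟩
  rcases hB.2 C hC with a | a
  · exact Or.inl (a.trans subset_union_right)
  · rw [union_assoc]
    exact (hA.2 _ a).imp_left fun b => subset_union_right.trans (b.trans subset_union_left)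

def ex {k : ℕ} (q : Fin k × Finset α) : Finset (Fin k × α) := {p | p.1 = q.1 → p.2 ∈ q.2}

theorem mem_ex {k : ℕ} {q : Fin k × Finset α} {p : Fin k × α} :
    p ∈ ex q ↔ (p.1 = q.1 → p.2 ∈ q.2) := by simp [ex]

theorem bad {H : Finset (Finset α)} (z : α) (h0 : ∅ ∈ H) (h1 : univ ∈ H)
    (h2 : ∀ A ∈ H, ∀ B ∈ H, A ∪ B ∈ H) (h3 : ∀ i, 2 * #{A ∈ H | i ∈ A} < #H) (k : ℕ)
    (hk : 2 * ((k + 2) * 2 ^ Fintype.card α) + 2 < 2 ^ (k + 1)) :
    ∃ F : Finset (Finset (Fin (k + 2) × α)), UC F ∧ Half F ∧ ¬Half (clos F) := by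
  let F : Finset (Finset (Fin (k + 2) × α)) := (univ ×ˢ H).image ex
  have mF : ∀ j, ∀ A ∈ H, ex (j, A) ∈ F := fun j A a =>
    mem_image_of_mem _ (mem_product.2 ⟨mem_univ _, a⟩)
  have uF : univ ∈ F := by
    convert mF 0 _ h1
    ext p
    simp [mem_ex]
  have u : UC F := by
    refine ⟨fun e => ?_, uF, fun _ a' _ b' => ?_⟩
    · obtain ⟨⟨j, A⟩, -, e⟩ := mem_image.1 e
      obtain ⟨l, hl⟩ := exists_ne j
      exact notMem_empty (l, z) (e ▸ mem_ex.2 fun t => absurd t hl)
    · obtain ⟨⟨j, A⟩, a, rfl⟩ := mem_image.1 a'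
      obtain ⟨⟨l, B⟩, b, rfl⟩ := mem_image.1 b'
      by_cases e : j = l
      · subst e
        convert mF j _ (h2 _ (mem_product.1 a).2 _ (mem_product.1 b).2) using 1
        ext p
        simp only [mem_union, mem_ex]
        tauto
      · convert uF
        ext p
        simp only [mem_union, mem_ex, mem_univ, iff_true]
        by_cases t : p.1 = j
        · exact Or.inr fun s => absurd (t.symm.trans s) e
        · exact Or.inl fun s => absurd s t
  refine ⟨F, u, ⟨(0, z), ?_⟩, fun ⟨w, hw⟩ => ?_⟩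
  · have a := card_filter_add_card_filter_not (s := F) (fun A => (0, z) ∈ A)
    have b : #{A ∈ F | (0, z) ∉ A} ≤ #H := by
      refine le_trans (card_le_card fun C hC => ?_) (card_image_le (f := fun A => ex (0, A)))
      obtain ⟨c, d⟩ := mem_filter.1 hC
      obtain ⟨⟨j, A⟩, a, rfl⟩ := mem_image.1 c
      have : 0 = j := by
        by_contra t
        exact d (mem_ex.2 fun s => absurd s t)
      subst this
      exact mem_image_of_mem _ (mem_product.1 a).2
    have c : #H ≤ #{A ∈ F | (0, z) ∈ A} := by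
      refine card_le_card_of_injOn (fun A => ex (1, A)) (fun A a => mem_coe.2 (mem_filter.2
        ⟨mF _ _ a, mem_ex.2 fun s => absurd s (by simp)⟩)) fun A _ B _ e => ?_
      ext i
      simpa [mem_ex] using Finset.ext_iff.1 e (1, i)
    omega
  · have a : (pw (k + 2) H).erase ∅ ⊆ clos F := fun C hC => by
      obtain ⟨c, d⟩ := mem_erase.1 hC
      refine (mem_clos u).2 ⟨nonempty_iff_ne_empty.2 c, fun _ b' => Or.inr ?_⟩
      obtain ⟨⟨j, A⟩, a, rfl⟩ := mem_image.1 b'
      convert mF j _ (h2 _ ((mem_filter.1 d).2 j) _ (mem_product.1 a).2) using 1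
      ext ⟨l, i⟩
      by_cases t : l = j <;> simp [mem_ex, sl, t]
    have b : ({C ∈ clos F | w ∈ C} : Finset _) ⊆ {C ∈ pw (k + 2) H | w ∈ C} ∪ univ.image ex := by
      intro C hC
      obtain ⟨c, d⟩ := mem_filter.1 hC
      refine mem_union.2 (or_iff_not_imp_right.2 fun n => mem_filter.2
        ⟨mem_filter.2 ⟨mem_univ _, fun j => ?_⟩, d⟩)
      rcases ((mem_clos u).1 c).2 _ (mF j _ h0) with s | s
      · refine absurd (mem_image.2 ⟨(j, sl j C), mem_univ _, ?_⟩) n
        ext ⟨l, i⟩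
        by_cases t : l = j
        · simp [mem_ex, sl, t]
        · simpa [mem_ex, t] using s (mem_ex.2 fun s => absurd s t : (l, i) ∈ _)
      · obtain ⟨⟨l, A⟩, a, e⟩ := mem_image.1 s
        have : ∀ i, i ∈ sl j C ↔ (j = l → i ∈ A) := fun i => by
          simpa [mem_ex, sl] using (Finset.ext_iff.1 e (j, i)).symm
        by_cases t : j = l
        · convert (mem_product.1 a).2
          ext i
          rw [this]
          simp [t]
        · convert h1
          ext i
          simp [this, t]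
    have a := (pred_card_le_card_erase).trans (card_le_card a)
    have b := (card_le_card b).trans ((card_union_le _ _).trans
      (Nat.add_le_add_left card_image_le _))
    have c : 2 * #{C ∈ pw (k + 2) H | w ∈ C} + #H ^ (k + 1) ≤ #H ^ (k + 2) :=
      deg_pw (k := k + 1) H h3 w
    have g : 2 ≤ #H := by
      have := h3 z
      have : 0 < #{A ∈ H | z ∈ A} := card_pos.2 ⟨univ, mem_filter.2 ⟨h1, mem_univ _⟩⟩
      omega
    have d := Nat.pow_le_pow_left g (k + 1)
    rw [card_pw] at a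
    simp only [card_univ, Fintype.card_prod, Fintype.card_fin, Fintype.card_finset] at b
    omega

theorem result :
    (∀ (α : Type) [Fintype α] [DecidableEq α] (F : Finset (Finset α)),
      UC F → Half F → Half (clos F)) ↔ Frankl := by
  refine ⟨fun q α _ _ G hU hn => ?_, fun q α _ _ F u _ => ?_⟩
  · by_contra c
    push Not at c
    obtain ⟨β, _, _, ⟨z⟩, H, h0, h1, h2, h3⟩ := norm G hU hn c 1
    obtain ⟨F, a, b, c⟩ := bad z h0 h1 h2 h3 (2 * Fintype.card β + 5) (by
      generalize Fintype.card β = m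
      have := Nat.lt_two_pow_self (n := m + 3)
      have p : 0 < 2 ^ m := by positivity
      rw [show 2 * m + 5 + 1 = m + 3 + (m + 3) by ring, pow_add 2 (m + 3)]
      nth_rewrite 1 [pow_add]
      nlinarith [Nat.mul_le_mul_left (2 ^ m) this])
    exact c (q _ F a b)
  · have u := uc_clos u
    obtain ⟨i, hi⟩ := q α _ u.2.2 ⟨univ, u.2.1, nonempty_iff_ne_empty.2 fun e => u.1 (e ▸ u.2.1)⟩
    exact ⟨i, by omega⟩

end Pool.Agent.Results.MP_89e0e0_co.Equiv
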